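import Pool.Agent.H948.HS.Stm

/-!
# Project HS (helper948), part BRL: bridges
-/

set_option autoImplicit false
set_option linter.all false

namespace Pool.Agent.H747.HS

open MeasureTheory ProbabilityTheory Set Filter Metric
open scoped ENNReal NNReal Topology RealInnerProductSpace
open Pool.Agent.H948.HS

variable {m : ℕ}

theorem brl_le_of_pow {x y D : ℝ} (hx : 0 ≤ x) (hy : 0 < y) (h : ∀ k : ℕ, x ^ k ≤ D * y ^ k) :
    x ≤ y := by
  by_contra hlt
  push Not at hlt
  have h1 : 1 < x / y := (one_lt_div hy).2 hlt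
  obtain ⟨k, hk⟩ := pow_unbounded_of_one_lt D h1
  have h2 := h k
  have h3 : 0 < y ^ k := pow_pos hy k
  rw [div_pow, lt_div_iff₀ h3] at hk
  linarith

theorem brl_ht_one (u : Om m) (i : ℕ) : ht u i (i + 1) = (u i : E m) 0 := by
  unfold ht S
  rw [Nat.Ico_succ_singleton, Finset.sum_singleton]

/-- First step up. -/
def Up (m : ℕ) (c : ℝ) : Set (Om m) := {u | c < (u 0 : E m) 0}

theorem meas_Up (c : ℝ) : MeasurableSet (Up m c) :=
  measurableSet_lt measurable_const
    ((measurable_coord 0).comp (measurable_subtype_coe.comp (measurable_pi_apply 0)))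

theorem loc_Up (c : ℝ) : Loc 1 (Up m c) := by
  intro u v h
  show c < (u 0 : E m) 0 ↔ c < (v 0 : E m) 0
  rw [h 0 one_pos]

theorem P_Up (c : ℝ) : (Pm m).real (Up m c) = pc m c := by
  have hm : MeasurableSet {x : Sp m | c < (x : E m) 0} :=
    measurableSet_lt measurable_const ((measurable_coord 0).comp measurable_subtype_coe)
  have h1 := measurePreserving_eval_infinitePi (fun _ : ℕ => sig m) 0
  unfold pc
  rw [← h1.measureReal_preimage hm.nullMeasurableSet]
  rfl

theorem P_le_one (A : Set (Om m)) : (Pm m).real A ≤ 1 := measureReal_le_one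

theorem mem_shift_Up {c : ℝ} {u : Om m} {i : ℕ} : shift i u ∈ Up m c ↔ c < ht u i (i + 1) := by
  rw [brl_ht_one]
  rfl

/-! ### Concatenation -/

theorem brd_concat {c : ℝ} (hc : 0 < c) {u : Om m} {a b : ℕ} (h1 : u ∈ Brd m c a)
    (h2 : shift a u ∈ Brd m c b) : u ∈ Brd m c (a + b) := by
  have ha : 0 ≤ ht u 0 a := by
    rcases Nat.eq_zero_or_pos a with h | h
    · rw [h, ht_self]
    · exact (hc.trans (h1.2.1 a h le_rfl)).le
  have hw : ∀ j, ht (shift a u) 0 j = ht u a (a + j) := fun j => by rw [ht_shift, add_zero]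
  have hb : ∀ j, 0 < j → j ≤ b → c < ht u a (a + j) := fun j h3 h4 => by
    rw [← hw]; exact h2.2.1 j h3 h4
  have hb' : 0 ≤ ht u a (a + b) := by
    rcases Nat.eq_zero_or_pos b with h | h
    · rw [h, add_zero, ht_self]
    · exact (hc.trans (hb b h le_rfl)).le
  refine ⟨?_, ?_, ?_⟩
  · intro i j hij hj
    rcases le_or_gt j a with h3 | h3
    · exact h1.1 i j hij h3
    rcases le_or_gt a i with h4 | h4
    · have h5 := h2.1 (i - a) (j - a) (by omega) (by omega)
      rw [S_shift, show a + (i - a) = i by omega, show a + (j - a) = j by omega] at h5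
      exact h5
    · refine lt_of_lt_of_le ?_ (ht_le_norm u i j)
      rw [← ht_add u h4.le h3.le]
      have h5 := h1.2.2 i h4
      have h6 := ht_add u (Nat.zero_le i) h4.le
      have h7 := hb (j - a) (by omega) (by omega)
      rw [show a + (j - a) = j by omega] at h7
      linarith
  · intro j h3 h4
    rcases le_or_gt j a with h5 | h5
    · exact h1.2.1 j h3 h5
    · have h7 := hb (j - a) (by omega) (by omega)
      rw [show a + (j - a) = j by omega] at h7
      have h8 := ht_add u (Nat.zero_le a) h5.le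
      linarith
  · intro j h3
    have h8 := ht_add u (Nat.zero_le a) (Nat.le_add_right a b)
    rcases lt_or_ge j a with h5 | h5
    · have h6 := h1.2.2 j h5
      linarith
    · have h6 := h2.2.2 (j - a) (by omega)
      rw [hw, hw, show a + (j - a) = j by omega] at h6
      have h7 := ht_add u (Nat.zero_le a) h5
      linarith

theorem brd_up {c : ℝ} (hc : 0 < c) {u : Om m} {n : ℕ} (h : ∀ i < n, shift i u ∈ Up m c) :
    u ∈ Brd m c n := by
  have key : ∀ k i, 0 < k → i + k ≤ n → c < ht u i (i + k) := by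
    intro k
    induction k with
    | zero => intro i h0; omega
    | succ k ih =>
      intro i _ h2
      have h3 := mem_shift_Up.1 (h (i + k) (by omega))
      rw [← ht_add u (Nat.le_add_right i k) (by omega : i + k ≤ i + (k + 1))]
      have h4 : 0 ≤ ht u i (i + k) := by
        rcases Nat.eq_zero_or_pos k with h5 | h5
        · rw [h5, add_zero, ht_self]
        · exact (hc.trans (ih i h5 (by omega))).le
      rw [← add_assoc]
      linarith
  have key' : ∀ i j, i < j → j ≤ n → c < ht u i j := fun i j hij hj => by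
    have h1 := key (j - i) i (by omega) (by omega)
    rwa [show i + (j - i) = j by omega] at h1
  refine ⟨fun i j hij hj => (key' i j hij hj).trans_le (ht_le_norm u i j),
    fun j h0 hj => key' 0 j h0 hj, fun j hj => ?_⟩
  have h1 := key' j n hj le_rfl
  have h2 := ht_add u (Nat.zero_le j) hj.le
  linarith

theorem brd_wb {c : ℝ} (hc : 0 < c) {u : Om m} {n : ℕ} (h0 : u ∈ Up m c)
    (h1 : shift 1 u ∈ Wb m c (e0 m) n) (h2 : shift (n + 1) u ∈ Up m c) : u ∈ Brd m c (n + 2) := by
  have h0' : c < ht u 0 1 := by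
    have h3 := mem_shift_Up.1 (show shift 0 u ∈ Up m c by rwa [shift_zero])
    exact h3
  have h2' : c < ht u (n + 1) (n + 2) := mem_shift_Up.1 h2
  have hw : ∀ j, j ≤ n → 0 ≤ ht u 1 (1 + j) ∧ ht u 1 (1 + j) ≤ ht u 1 (1 + n) := by
    intro j hj
    have h3 := h1.2 j hj
    rw [← ht_eq_inner, ← ht_eq_inner, ht_shift, ht_shift, add_zero] at h3
    exact h3
  have hw' : ∀ j, 1 ≤ j → j ≤ n + 1 → 0 ≤ ht u 1 j ∧ ht u 1 j ≤ ht u 1 (n + 1) := by
    intro j hj1 hj2
    have h3 := hw (j - 1) (by omega)
    rwa [show 1 + (j - 1) = j by omega, add_comm 1 n] at h3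
  have hpos : ∀ j, 0 < j → j ≤ n + 2 → c < ht u 0 j := by
    intro j hj1 hj2
    rcases Nat.lt_or_ge (n + 1) j with h3 | h3
    · have h4 : j = n + 2 := by omega
      subst h4
      have h5 := ht_add u (Nat.zero_le 1) (by omega : 1 ≤ n + 1)
      have h6 := ht_add u (Nat.zero_le (n + 1)) (by omega : n + 1 ≤ n + 2)
      have h7 := (hw' (n + 1) (by omega) le_rfl).1
      linarith
    · have h5 := ht_add u (Nat.zero_le 1) (by omega : 1 ≤ j)
      have h7 := (hw' j hj1 h3).1
      linarith
  have hend : ∀ j, j < n + 2 → c < ht u j (n + 2) := by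
    intro j hj
    rcases Nat.eq_zero_or_pos j with h3 | h3
    · subst h3
      exact hpos _ (by omega) le_rfl
    · have h4 := ht_add u (by omega : j ≤ n + 1) (by omega : n + 1 ≤ n + 2)
      have h5 := ht_add u h3 (by omega : j ≤ n + 1)
      have h6 := (hw' j h3 (by omega)).2
      linarith
  refine ⟨fun i j hij hj => ?_, hpos, fun j hj => ?_⟩
  · rcases Nat.eq_zero_or_pos i with h3 | h3
    · subst h3
      exact (hpos j hij hj).trans_le (ht_le_norm u 0 j)
    · rcases Nat.lt_or_ge (n + 1) j with h4 | h4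
      · have h5 : j = n + 2 := by omega
        subst h5
        exact (hend i hij).trans_le (ht_le_norm u i _)
      · have h5 := h1.1 (i - 1) (j - 1) (by omega) (by omega)
        rw [S_shift, show 1 + (i - 1) = i by omega, show 1 + (j - 1) = j by omega] at h5
        exact h5
  · have h3 := hend j hj
    have h4 := ht_add u (Nat.zero_le j) hj.le
    linarith

theorem s_brl (hB : S_BLOCK) (hR : S_ROT) (hS : S_SIG) (hL : S_LIN) (hM : S_LAM) : S_BRL := by
  intro m c hc hc1
  have hpc : 0 < pc m c := by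
    have h1 := hS.1 m (e0 m) (1 - c) norm_e0 (by linarith)
    have h2 : {x : Sp m | 1 - (1 - c) < ⟪e0 m, (x : E m)⟫} = {x : Sp m | c < (x : E m) 0} := by
      ext x
      have h3 : ⟪e0 m, (x : E m)⟫ = (x : E m) 0 := by simp [e0, EuclideanSpace.inner_single_left]
      show 1 - (1 - c) < ⟪e0 m, (x : E m)⟫ ↔ c < (x : E m) 0
      rw [h3, sub_sub_cancel]
    rw [h2] at h1
    exact h1
  have hsup : ∀ a b, B m c a * B m c b ≤ B m c (a + b) := by
    intro a b
    have h1 := hB m 2 (fun i => if i = 0 then 0 else a) (fun i => if i = 0 then a else b)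
      (fun i => if i = 0 then Brd m c a else Brd m c b)
      (by
        intro i hi
        by_cases h : i = 0
        · simp only [h, if_true]; exact ⟨meas_Brd c a, loc_Brd c a⟩
        · simp only [h, if_false]; exact ⟨meas_Brd c b, loc_Brd c b⟩)
      (by
        intro i hi
        have : i = 0 := by omega
        subst this
        simp)
    rw [Finset.prod_range_succ, Finset.prod_range_one] at h1
    simp only [if_true, one_ne_zero, if_false] at h1
    unfold B
    rw [← h1]
    refine measureReal_mono ?_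
    intro u hu
    have h2 := hu 0 (by norm_num)
    have h3 := hu 1 (by norm_num)
    simp only [if_true, one_ne_zero, if_false, shift_zero] at h2 h3
    exact brd_concat hc h2 h3
  have hone : ∀ n, pc m c ^ n ≤ B m c n := by
    intro n
    have h1 := hB m n (fun i => i) (fun _ => 1) (fun _ => Up m c)
      (fun i _ => ⟨meas_Up c, loc_Up c⟩) (fun i _ => le_rfl)
    rw [Finset.prod_const, Finset.card_range, P_Up] at h1
    rw [← h1]
    unfold B
    refine measureReal_mono ?_
    intro u hu
    exact brd_up hc hu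
  obtain ⟨l0, l1, hZ0, hlZ, hZ, hρ⟩ := hM m c hc hc1
  have hpow : ∀ n k, B m c n ^ k ≤ B m c (k * n) := by
    intro n k
    induction k with
    | zero =>
      rw [pow_zero, zero_mul]
      have := hone 0
      rwa [pow_zero] at this
    | succ k ih =>
      rw [pow_succ, Nat.succ_mul]
      exact (mul_le_mul_of_nonneg_right ih measureReal_nonneg).trans (hsup _ _)
  have hBZ : ∀ n, B m c n ≤ Z m c n := fun n => measureReal_mono fun u hu => hu.1
  have hle : ∀ n, B m c n ≤ lam m c ^ n := by
    intro n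
    have h1 : ∀ ρ : ℝ, lam m c < ρ → B m c n ≤ ρ ^ n := by
      intro ρ hρ1
      obtain ⟨D, hD, hDn⟩ := hρ ρ hρ1
      have hρ0 : 0 < ρ := l0.trans hρ1
      refine brl_le_of_pow (D := D) measureReal_nonneg (pow_pos hρ0 n) fun k => ?_
      rw [← pow_mul, mul_comm n k]
      exact ((hpow n k).trans (hBZ _)).trans (hDn _)
    have h2 : Tendsto (fun ρ : ℝ => ρ ^ n) (𝓝[>] (lam m c)) (𝓝 (lam m c ^ n)) :=
      ((continuous_pow n).tendsto _).mono_left nhdsWithin_le_nhds
    refine ge_of_tendsto h2 ?_
    filter_upwards [self_mem_nhdsWithin] with ρ hρ1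
    exact h1 ρ hρ1
  refine ⟨hpc, ?_, hone, hsup, hle, ?_⟩
  · rw [← P_Up]
    exact P_le_one _
  · intro f n hf
    obtain ⟨R, hRf⟩ := hL.1 m f hf
    have h1 := hR m R (Wb m c f n) (meas_Wb c f n)
    have h2 : {u : Om m | rotO R u ∈ Wb m c f n} = Wb m c (e0 m) n := by
      ext u
      show (rotO R u ∈ Saw m c n ∧ ∀ j, j ≤ n → 0 ≤ ⟪f, S (rotO R u) 0 j⟫ ∧
        ⟪f, S (rotO R u) 0 j⟫ ≤ ⟪f, S (rotO R u) 0 n⟫) ↔
        (u ∈ Saw m c n ∧ ∀ j, j ≤ n → 0 ≤ ⟪e0 m, S u 0 j⟫ ∧
        ⟪e0 m, S u 0 j⟫ ≤ ⟪e0 m, S u 0 n⟫)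
      have h3 : ∀ j, ⟪f, S (rotO R u) 0 j⟫ = ⟪e0 m, S u 0 j⟫ := fun j => by
        rw [rotO_S, ← hRf, LinearIsometryEquiv.inner_map_map]
      rw [rotO_Saw]
      simp only [h3]
    rw [h2] at h1
    rw [← h1]
    have h4 := hB m 3 (fun i => if i = 0 then 0 else if i = 1 then 1 else n + 1)
      (fun i => if i = 1 then n else 1) (fun i => if i = 1 then Wb m c (e0 m) n else Up m c)
      (by
        intro i hi
        by_cases h : i = 1
        · simp only [h, if_true]; exact ⟨meas_Wb c _ n, loc_Wb c _ n⟩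
        · simp only [h, if_false]; exact ⟨meas_Up c, loc_Up c⟩)
      (by
        intro i hi
        have : i = 0 ∨ i = 1 := by omega
        rcases this with rfl | rfl
        · simp
        · simp [add_comm])
    rw [Finset.prod_range_succ, Finset.prod_range_succ, Finset.prod_range_one] at h4
    simp only [if_true, zero_ne_one, if_false, (by norm_num : (2 : ℕ) ≠ 1), P_Up] at h4
    have h5 : (Pm m).real (Wb m c (e0 m) n) * pc m c ^ 2 =
        pc m c * (Pm m).real (Wb m c (e0 m) n) * pc m c := by ring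
    rw [h5, ← h4]
    unfold B
    refine measureReal_mono ?_
    intro u hu
    have h6 := hu 0 (by norm_num)
    have h7 := hu 1 (by norm_num)
    have h8 := hu 2 (by norm_num)
    simp only [if_true, one_ne_zero, zero_ne_one, if_false, (by norm_num : (2 : ℕ) ≠ 1),
      (by norm_num : (2 : ℕ) ≠ 0), shift_zero] at h6 h7 h8
    exact brd_wb hc h6 h7 h8

end Pool.Agent.H747.HS
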